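import Mathlib

set_option autoImplicit false

open Polynomial

namespace Pool.Agent.N874.WG

/-- Cayley-Hamilton companion: an integer matrix with a given monic characteristic polynomial -/
theorem exists_companion (f : ℤ[X]) (hf : f.Monic) :
    ∃ (d : ℕ) (B : Matrix (Fin d) (Fin d) ℤ), B.charpoly = f := by
  let pb := AdjoinRoot.powerBasis' hf
  have hdim : pb.dim = f.natDegree := rfl
  let B : Matrix (Fin pb.dim) (Fin pb.dim) ℤ := Algebra.leftMulMatrix pb.basis pb.gen
  have h1 : aeval pb.gen B.charpoly = 0 := by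
    apply (injective_iff_map_eq_zero (Algebra.leftMulMatrix pb.basis)).mp
      (Algebra.leftMulMatrix_injective pb.basis)
    rw [← Polynomial.aeval_algHom_apply]
    exact Matrix.aeval_self_charpoly B
  have hgen : pb.gen = AdjoinRoot.root f := AdjoinRoot.powerBasis'_gen hf
  rw [hgen, AdjoinRoot.aeval_eq, AdjoinRoot.mk_eq_zero] at h1
  refine ⟨_, B, ?_⟩
  have h2 : B.charpoly.natDegree = f.natDegree := by
    rw [Matrix.charpoly_natDegree_eq_dim, Fintype.card_fin, hdim]
  exact (Polynomial.eq_of_monic_of_dvd_of_natDegree_le hf (Matrix.charpoly_monic B) h1 h2.le)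

/-- `ℤ[X] → ℤ_p[X]` -/
noncomputable abbrev toP (p : ℕ) [Fact p.Prime] (u : ℤ[X]) : ℤ_[p][X] :=
  u.map (Int.castRingHom ℤ_[p])

theorem norm_step {p : ℕ} [Fact p.Prime] (f : ℤ[X]) (hf : f.Monic) (z : ℤ_[p]) (n k : ℕ)
    (u v a : ℤ[X]) (huv : u * v = 1 + f * a) (b c : ℤ_[p][X])
    (h : (C z - X) ^ n = toP p u + toP p f * b + C ((p : ℤ_[p]) ^ k) * c) :
    PadicInt.toZModPow k (((toP p f).eval z ^ n) ^ 2) = 1 := by
  obtain ⟨d, B, rfl⟩ := exists_companion f hf
  let φ : ℤ →+* ℤ_[p] := Int.castRingHom ℤ_[p]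
  let B' : Matrix (Fin d) (Fin d) ℤ_[p] := B.map φ
  have hB' : B'.charpoly = toP p B.charpoly := Matrix.charpoly_map B φ
  have hu : aeval B u * aeval B v = 1 := by
    rw [← map_mul, huv, map_add, map_mul, map_one, Matrix.aeval_self_charpoly, zero_mul, add_zero]
  have hdet : (aeval B u).det = 1 ∨ (aeval B u).det = -1 := by
    rw [← Int.isUnit_iff]
    refine IsUnit.of_mul_eq_one (aeval B v).det ?_
    rw [← Matrix.det_mul, hu, Matrix.det_one]
  have h1 : aeval B' (C z - X) = Matrix.scalar _ z - B' := by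
    rw [map_sub, aeval_C, aeval_X]
    rfl
  have h2 : (aeval B' (C z - X)).det = (toP p B.charpoly).eval z := by
    rw [h1, ← Matrix.eval_charpoly, hB']
  have h3 : aeval B' (toP p u) = (aeval B u).map φ := by
    have e := Polynomial.map_aeval_eq_aeval_map (S := Matrix (Fin d) (Fin d) ℤ)
      (T := ℤ_[p]) (U := Matrix (Fin d) (Fin d) ℤ_[p]) (φ := φ)
      (ψ := φ.mapMatrix) (by
        ext x
        · simp [Matrix.algebraMap_matrix_apply]) u B
    exact e.symm
  have h4 : aeval B' ((C z - X) ^ n) = (aeval B u).map φ + ((p : ℤ_[p]) ^ k) • aeval B' c := by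
    rw [h, map_add, map_add, map_mul, map_mul, h3, aeval_C]
    have : aeval B' (toP p B.charpoly) = 0 := by
      rw [← hB']
      exact Matrix.aeval_self_charpoly B'
    rw [this, zero_mul, add_zero, Algebra.smul_def]
  have h5 : (toP p B.charpoly).eval z ^ n = ((aeval B u).map φ + ((p : ℤ_[p]) ^ k) • aeval B' c).det := by
    rw [← h4, map_pow, Matrix.det_pow, h2]
  have h6 : PadicInt.toZModPow k ((toP p B.charpoly).eval z ^ n) = ((aeval B u).det : ZMod (p ^ k)) := by
    rw [h5, RingHom.map_det]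
    have e : (PadicInt.toZModPow k).mapMatrix ((aeval B u).map φ + ((p : ℤ_[p]) ^ k) • aeval B' c) =
        (Int.castRingHom (ZMod (p ^ k))).mapMatrix (aeval B u) := by
      ext i j
      simp only [RingHom.mapMatrix_apply, Matrix.map_apply, Matrix.add_apply, Matrix.smul_apply,
        smul_eq_mul, map_add, map_mul, map_pow, map_natCast]
      have : ((p : ZMod (p ^ k)) ^ k) = 0 := by
        rw [← Nat.cast_pow, ZMod.natCast_self]
      rw [this, zero_mul, add_zero]
      simp [φ]
    rw [e, ← RingHom.map_det]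
    simp
  rw [map_pow, h6]
  rcases hdet with e | e <;> rw [e] <;> simp

end Pool.Agent.N874.WG
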