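import Pool.Agent.N874.WG.A

set_option autoImplicit false

open Polynomial

namespace Pool.Agent.N874.WG

/-- two roots of unity of a field are powers of one primitive root of unity -/
theorem common {K : Type} [Field K] {N : ℕ} (hN : 0 < N) {ζ η : K} (hζ : ζ ^ N = 1)
    (hη : η ^ N = 1) :
    ∃ (ξ : K) (M i j : ℕ), 0 < M ∧ IsPrimitiveRoot ξ M ∧ ζ = ξ ^ i ∧ η = ξ ^ j := by
  haveI : NeZero N := ⟨hN.ne'⟩
  obtain ⟨g, hg⟩ := IsCyclic.exists_generator (α := rootsOfUnity N K)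
  have hfin : IsOfFinOrder g := isOfFinOrder_of_finite g
  have h1 : ∀ x : K, x ^ N = 1 → ∃ i : ℕ, x = ((g : Kˣ) : K) ^ i := by
    intro x hx
    let y : rootsOfUnity N K := rootsOfUnity.mkOfPowEq x hx
    have hy := hg y
    rw [← hfin.mem_powers_iff_mem_zpowers] at hy
    obtain ⟨i, hi⟩ := hy
    refine ⟨i, ?_⟩
    have h2 : ((y : Kˣ) : K) = x := rootsOfUnity.coe_mkOfPowEq _
    rw [← h2, ← hi]
    simp
  obtain ⟨i, hi⟩ := h1 ζ hζ
  obtain ⟨j, hj⟩ := h1 η hη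
  have hg1 : ((g : Kˣ) : K) ^ N = 1 := by
    have := g.2
    rw [mem_rootsOfUnity] at this
    rw [← Units.val_pow_eq_pow_val, this, Units.val_one]
  refine ⟨((g : Kˣ) : K), orderOf ((g : Kˣ) : K), i, j, ?_, IsPrimitiveRoot.orderOf _, hi, hj⟩
  exact orderOf_pos_iff.2 (isOfFinOrder_iff_pow_eq_one.2 ⟨N, hN, hg1⟩)

theorem transfer {K L : Type} [Field K] [CharZero K] [Field L] [CharZero L] {M : ℕ} (hM : 0 < M)
    {ξ : K} {ξ' : L} (h : IsPrimitiveRoot ξ M) (h' : IsPrimitiveRoot ξ' M) (P : ℤ[X])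
    (hP : aeval ξ P = 0) : aeval ξ' P = 0 := by
  have h1 : cyclotomic M ℤ ∣ P := by
    rw [cyclotomic_eq_minpoly h hM]
    exact minpoly.isIntegrallyClosed_dvd (h.isIntegral hM) hP
  obtain ⟨Q, rfl⟩ := h1
  rw [map_mul]
  have h2 : aeval ξ' (cyclotomic M ℤ) = 0 := by
    rw [cyclotomic_eq_minpoly h' hM]
    exact minpoly.aeval _ _
  rw [h2, zero_mul]

theorem rel {K L : Type} [Field K] [CharZero K] [Field L] [CharZero L] {M : ℕ} (hM : 0 < M)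
    {ξ : K} {ξ' : L} (h : IsPrimitiveRoot ξ M) (h' : IsPrimitiveRoot ξ' M) (G : ℤ[X]) (i j : ℕ)
    (hP : aeval (ξ ^ i) G = ξ ^ j) : aeval (ξ' ^ i) G = ξ' ^ j := by
  have h1 := transfer hM h h' (G.comp (X ^ i) - X ^ j) (by
    rw [map_sub, aeval_comp, map_pow, map_pow, aeval_X, hP, sub_self])
  rw [map_sub, aeval_comp, map_pow, map_pow, aeval_X, sub_eq_zero] at h1
  exact h1

noncomputable def Pol (G : ℤ[X]) : ℤ[X] := G * G.reverse - X ^ G.natDegree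

theorem Pol_natDegree (G : ℤ[X]) (hG : G.Monic) (h0 : G.coeff 0 ≠ 0) (hd : 0 < G.natDegree) :
    (Pol G).natDegree = 2 * G.natDegree := by
  have h1 : G.natTrailingDegree = 0 := by
    rw [natTrailingDegree_eq_zero]
    exact Or.inr h0
  have h2 : G.reverse.natDegree = G.natDegree := by
    rw [reverse_natDegree, h1, Nat.sub_zero]
  have h3 : G.reverse ≠ 0 := by
    rw [Ne, reverse_eq_zero]
    exact hG.ne_zero
  have h4 : (G * G.reverse).natDegree = 2 * G.natDegree := by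
    rw [natDegree_mul hG.ne_zero h3, h2]
    ring
  unfold Pol
  rw [natDegree_sub_eq_left_of_natDegree_lt, h4]
  rw [h4, natDegree_X_pow]
  omega

theorem Pol_root {K : Type} [Field K] (G : ℤ[X]) {ζ η : K} (hζ : ζ ≠ 0) (hη : η ≠ 0)
    (h1 : aeval ζ G = η) (h2 : aeval ζ⁻¹ G = η⁻¹) : aeval ζ (Pol G) = 0 := by
  have hi : ζ⁻¹ ≠ 0 := inv_ne_zero hζ
  letI : Invertible (ζ⁻¹) := invertibleOfNonzero hi
  have h3 := eval₂_reverse_mul_pow (algebraMap ℤ K) (ζ⁻¹) G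
  rw [invOf_eq_inv, inv_inv] at h3
  rw [aeval_def] at h1 h2
  unfold Pol
  rw [map_sub, map_mul, map_pow, aeval_X, aeval_def, aeval_def, h1]
  rw [h2] at h3
  have h4 : eval₂ (algebraMap ℤ K) ζ G.reverse = η⁻¹ * ζ ^ G.natDegree := by
    rw [← h3, mul_assoc, ← mul_pow, inv_mul_cancel₀ hζ, one_pow, mul_one]
  rw [h4, ← mul_assoc, mul_inv_cancel₀ hη, one_mul, sub_self]

/-- the main algebraic step -/
theorem cyc {K : Type} [Field K] [CharZero K] (G : ℤ[X]) (hG : G.Monic) (h0 : G.coeff 0 ≠ 0)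
    (hd : 0 < G.natDegree) {N : ℕ} (hN : 0 < N) {ζ η : K} (hζ : ζ ^ N = 1) (hη : η ^ N = 1)
    (h : aeval ζ G = η) :
    aeval ζ (Pol G) = 0 ∧ (orderOf ζ).totient ≤ 2 * G.natDegree ∧
    ((∀ ζ' η' : ℂ, (∃ n, 0 < n ∧ ζ' ^ n = 1) → (∃ n, 0 < n ∧ η' ^ n = 1) → aeval ζ' G = η' →
      ζ' = 1 ∨ ζ' = -1) → ζ = 1 ∨ ζ = -1) := by
  obtain ⟨ξ, M, i, j, hM, hξ, rfl, rfl⟩ := common hN hζ hη
  have hξ0 : ξ ≠ 0 := hξ.ne_zero hM.ne'
  have h2 := rel hM hξ hξ.inv G i j h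
  rw [inv_pow, inv_pow] at h2
  have h3 := Pol_root G (pow_ne_zero i hξ0) (pow_ne_zero j hξ0) h h2
  have hdeg := Pol_natDegree G hG h0 hd
  refine ⟨h3, ?_, ?_⟩
  · have hpos : 0 < orderOf (ξ ^ i) :=
      orderOf_pos_iff.2 (isOfFinOrder_iff_pow_eq_one.2 ⟨N, hN, hζ⟩)
    have h4 : cyclotomic (orderOf (ξ ^ i)) ℤ ∣ Pol G := by
      rw [cyclotomic_eq_minpoly (IsPrimitiveRoot.orderOf (ξ ^ i)) hpos]
      exact minpoly.isIntegrallyClosed_dvd ((IsPrimitiveRoot.orderOf (ξ ^ i)).isIntegral hpos) h3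
    have h5 : Pol G ≠ 0 := by
      intro h6
      rw [h6, natDegree_zero] at hdeg
      omega
    have h6 := natDegree_le_of_dvd h4 h5
    rw [natDegree_cyclotomic, hdeg] at h6
    exact h6
  · intro hC
    have hξ' := Complex.isPrimitiveRoot_exp M hM.ne'
    set ξ' := Complex.exp (2 * Real.pi * Complex.I / M) with hdef
    have h4 := rel hM hξ hξ' G i j h
    have h5 : (ξ' ^ i) ^ M = 1 := by rw [← pow_mul, mul_comm, pow_mul, hξ'.pow_eq_one, one_pow]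
    have h6 : (ξ' ^ j) ^ M = 1 := by rw [← pow_mul, mul_comm, pow_mul, hξ'.pow_eq_one, one_pow]
    have h7 := hC (ξ' ^ i) (ξ' ^ j) ⟨M, hM, h5⟩ ⟨M, hM, h6⟩ h4
    have h8 : aeval ξ' ((X ^ i) ^ 2 - 1 : ℤ[X]) = 0 := by
      rw [map_sub, map_pow, map_pow, aeval_X, map_one]
      rcases h7 with e | e <;> rw [e] <;> ring
    have h9 := transfer hM hξ' hξ ((X ^ i) ^ 2 - 1 : ℤ[X]) h8
    rw [map_sub, map_pow, map_pow, aeval_X, map_one, sub_eq_zero, sq, mul_self_eq_one_iff] at h9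
    exact h9

end Pool.Agent.N874.WG
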