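import Pool.Agent.N874.WG.A

set_option autoImplicit false

open Polynomial

namespace Pool.Agent.N874.WG

theorem prime_dvd {p : ℕ} [Fact p.Prime] {ζ : ℤ_[p]} {q : ℕ} (hq : q.Prime) (hq2 : q ≠ 2)
    (hζ : IsPrimitiveRoot ζ q) : q ∣ p - 1 := by
  have hp : p.Prime := Fact.out
  by_contra hn
  let r : ZMod p := PadicInt.toZMod ζ
  have hr1 : r ^ q = 1 := by
    show (PadicInt.toZMod ζ) ^ q = 1
    rw [← map_pow, hζ.pow_eq_one, map_one]
  have hr0 : r ≠ 0 := by
    intro h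
    rw [h, zero_pow hq.ne_zero] at hr1
    exact zero_ne_one hr1
  have hr2 : r ^ (p - 1) = 1 := ZMod.pow_card_sub_one_eq_one hr0
  have hr : r = 1 := by
    rw [← orderOf_eq_one_iff]
    have h1 := orderOf_dvd_of_pow_eq_one hr1
    have h2 := orderOf_dvd_of_pow_eq_one hr2
    rcases (Nat.dvd_prime hq).1 h1 with h | h
    · exact h
    · rw [h] at h2
      exact absurd h2 hn
  have hk : ζ - 1 ∈ RingHom.ker (PadicInt.toZMod (p := p)) := by
    rw [RingHom.mem_ker, map_sub, map_one]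
    exact sub_eq_zero.2 hr
  rw [PadicInt.ker_toZMod, PadicInt.maximalIdeal_eq_span_p, Ideal.mem_span_singleton] at hk
  obtain ⟨b, hb⟩ := hk
  have hζb : ζ = 1 + p * b := by rw [← hb]; ring
  have hsum : ∑ i ∈ Finset.range q, ζ ^ i = 0 := hζ.geom_sum_eq_zero hq.one_lt
  have hqp : p = q := by
    have h1 : ∑ i ∈ Finset.range q, r ^ i = 0 := by
      have := congrArg (PadicInt.toZMod (p := p)) hsum
      rw [map_sum, map_zero] at this
      simpa [map_pow] using this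
    rw [hr] at h1
    simp only [one_pow, Finset.sum_const, Finset.card_range, nsmul_eq_mul, mul_one] at h1
    rw [ZMod.natCast_eq_zero_iff] at h1
    exact (Nat.prime_dvd_prime_iff_eq hp hq).1 h1
  subst hqp
  have hodd : Odd p := hp.odd_of_ne_two hq2
  have h2 := odd_sq_dvd_geom_sum₂_sub (R := ℤ_[p]) 1 b hodd
  simp only [one_pow, mul_one] at h2
  rw [← hζb, hsum, zero_sub, dvd_neg] at h2
  have hpz : (p : ℤ_[p]) ≠ 0 := Nat.cast_ne_zero.2 hp.ne_zero
  have h3 : (p : ℤ_[p]) ∣ 1 := by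
    have h4 : (p : ℤ_[p]) * p ∣ p * 1 := by
      rw [mul_one, ← sq]
      exact h2
    exact (mul_dvd_mul_iff_left hpz).1 h4
  exact PadicInt.prime_p.not_unit (isUnit_of_dvd_one h3)

theorem four {p : ℕ} [Fact p.Prime] {ζ : ℤ_[p]} (hζ : IsPrimitiveRoot ζ 4) : p % 4 ≠ 3 := by
  rw [← ZMod.exists_sq_eq_neg_one_iff]
  have h1 : IsPrimitiveRoot (ζ ^ 2) 2 := hζ.pow (by norm_num) (by norm_num)
  have h2 : ζ ^ 2 = -1 := h1.eq_neg_one_of_two_right
  refine ⟨PadicInt.toZMod ζ, ?_⟩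
  rw [← sq, ← map_pow, h2, map_neg, map_one]

/-- a root of unity of small order in `ℤ_p` is `± 1` -/
theorem pm_one {p : ℕ} [Fact p.Prime] (D : ℕ) (h4 : p % 4 = 3)
    (hq : ∀ q : ℕ, q.Prime → q ≠ 2 → q ≤ D + 1 → ¬ q ∣ p - 1) {ζ : ℤ_[p]} {N : ℕ} (hN : 0 < N)
    (hζ : ζ ^ N = 1) (ht : (orderOf ζ).totient ≤ D) : ζ = 1 ∨ ζ = -1 := by
  have hpos : 0 < orderOf ζ := orderOf_pos_iff.2 (isOfFinOrder_iff_pow_eq_one.2 ⟨N, hN, hζ⟩)
  have hprim := IsPrimitiveRoot.orderOf ζ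
  by_cases h2 : orderOf ζ ≤ 2
  · have h3 : orderOf ζ = 1 ∨ orderOf ζ = 2 := by omega
    rcases h3 with h | h
    · left
      exact orderOf_eq_one_iff.1 h
    · right
      rw [h] at hprim
      exact hprim.eq_neg_one_of_two_right
  · exfalso
    rcases Nat.four_dvd_or_exists_odd_prime_and_dvd_of_two_lt (by omega : 2 < orderOf ζ) with
      h | ⟨q, hqp, hqd, hqo⟩
    · obtain ⟨k, hk⟩ := h
      have h5 : IsPrimitiveRoot (ζ ^ k) 4 := hprim.pow hpos (by rw [hk, mul_comm])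
      exact four h5 h4
    · obtain ⟨k, hk⟩ := hqd
      have h5 : IsPrimitiveRoot (ζ ^ k) q := hprim.pow hpos (by rw [hk, mul_comm])
      have hq2 : q ≠ 2 := by
        rintro rfl
        exact absurd hqo (by decide)
      have h6 := prime_dvd hqp hq2 h5
      have h7 : q.totient ≤ (orderOf ζ).totient :=
        Nat.le_of_dvd (Nat.totient_pos.2 hpos) (Nat.totient_dvd_of_dvd ⟨k, hk⟩)
      rw [Nat.totient_prime hqp] at h7
      have := hqp.one_lt
      exact hq q hqp hq2 (by omega) h6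

end Pool.Agent.N874.WG
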