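import Pool.Agent.N874.WG.B
import Pool.Agent.N874.WG.C

set_option autoImplicit false

open Polynomial

namespace Pool.Agent.N874.WG

variable {p : ℕ} [Fact p.Prime]

/-- the approximation condition -/
def Approx (p : ℕ) [Fact p.Prime] (f : ℤ[X]) (z : ℤ_[p]) (n : ℕ) : Prop :=
  ∀ k : ℕ, ∃ u : ℤ[X], (∃ v a : ℤ[X], u * v = 1 + f * a) ∧ ∃ b c : ℤ_[p][X],
    (C z - X) ^ n = toP p u + toP p f * b + C ((p : ℤ_[p]) ^ k) * c

theorem f_pow {f : ℤ[X]} (hf : f.Monic) {z : ℤ_[p]} {n : ℕ} (h : Approx p f z n) :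
    (toP p f).eval z ^ (2 * n) = 1 := by
  rw [← PadicInt.ext_of_toZModPow]
  intro k
  obtain ⟨u, ⟨v, a, huv⟩, b, c, hk⟩ := h k
  rw [map_one, ← norm_step f hf z n k u v a huv b c hk, ← pow_mul, mul_comm]

theorem Approx.dvd {f g : ℤ[X]} {z : ℤ_[p]} {n : ℕ} (h : Approx p (f * g) z n) :
    Approx p f z n := by
  intro k
  obtain ⟨u, ⟨v, a, huv⟩, b, c, hk⟩ := h k
  refine ⟨u, ⟨v, g * a, by rw [huv]; ring⟩, toP p g * b, c, ?_⟩
  rw [hk, toP, toP, toP, Polynomial.map_mul]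
  ring

/-- the case of an integral root of `f` -/
theorem root_step {a : ℤ} {g : ℤ[X]} (hg : g.Monic) {z : ℤ_[p]} {n : ℕ}
    (h : Approx p ((X - C a) * g) z n) :
    (z - a) ^ (2 * n) = 1 ∧ (toP p g).eval z ^ (2 * n) = 1 := by
  have h1 := f_pow (monic_X_sub_C a) h.dvd
  have h2 := f_pow ((monic_X_sub_C a).mul hg) h
  have e : (toP p (X - C a)).eval z = z - a := by
    simp [toP]
  rw [e] at h1
  rw [toP, Polynomial.map_mul, eval_mul] at h2
  change ((toP p (X - C a)).eval z * (toP p g).eval z) ^ (2 * n) = 1 at h2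
  rw [e, mul_pow, h1, one_mul] at h2
  exact ⟨h1, h2⟩

theorem int_pm {x : ℤ} {n : ℕ} (hn : 0 < n) (h : (x : ℤ_[p]) ^ n = 1) : x = 1 ∨ x = -1 := by
  have h1 : x ^ n = 1 := by
    have : ((x ^ n : ℤ) : ℤ_[p]) = ((1 : ℤ) : ℤ_[p]) := by
      push_cast
      exact h
    exact Int.cast_injective this
  rw [← Int.isUnit_iff]
  exact IsUnit.of_pow_eq_one h1 hn.ne'

theorem toP_eval_int (f : ℤ[X]) (x : ℤ) : (toP p f).eval (x : ℤ_[p]) = ((f.eval x : ℤ) : ℤ_[p]) := by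
  rw [toP, eval_intCast_map]
  rfl

/-- an integral point is a weakly global point -/
theorem approx_int (f : ℤ[X]) (x : ℤ) (h : f.eval x = 1 ∨ f.eval x = -1) :
    Approx p f (x : ℤ_[p]) 1 := by
  intro k
  have hd : X - C x ∣ f - C (f.eval x) := X_sub_C_dvd_sub_C_eval
  obtain ⟨w, hw⟩ := hd
  have hs : f.eval x * f.eval x = 1 := by
    rcases h with h | h <;> rw [h] <;> norm_num
  have hC : C (f.eval x) * C (f.eval x) = (1 : ℤ[X]) := by rw [← C_mul, hs, C_1]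
  refine ⟨C x - X, ⟨C (f.eval x) * w, -C (f.eval x), ?_⟩, 0, 0, ?_⟩
  · linear_combination (C (f.eval x)) * hw + hC
  · simp [toP]

theorem shift_eval (a : ℤ) (g : ℤ[X]) (z : ℤ_[p]) :
    aeval ((z : ℚ_[p]) - a) (g.comp (X + C a)) = (((toP p g).eval z : ℤ_[p]) : ℚ_[p]) := by
  rw [aeval_comp, map_add, aeval_X, aeval_C]
  have e : (z : ℚ_[p]) - a + (algebraMap ℤ ℚ_[p]) a = z := by simp
  rw [e, aeval_def, toP, eval_map]
  have e2 := Polynomial.hom_eval₂ g (Int.castRingHom ℤ_[p]) PadicInt.Coe.ringHom z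
  have e3 : (PadicInt.Coe.ringHom (p := p)).comp (Int.castRingHom ℤ_[p]) = algebraMap ℤ ℚ_[p] :=
    RingHom.ext_int _ _
  rw [e3] at e2
  exact e2.symm

/-- the main step -/
theorem main {a : ℤ} {g : ℤ[X]} (hg : g.Monic) (hd : 0 < g.natDegree) (ha : g.eval a ≠ 0)
    {z : ℤ_[p]} {n : ℕ} (hn : 0 < n) (h : Approx p ((X - C a) * g) z n) :
    aeval ((z : ℚ_[p]) - a) (Pol (g.comp (X + C a))) = 0 ∧
    (orderOf (z - a)).totient ≤ 2 * g.natDegree ∧
    ((∀ ζ' η' : ℂ, (∃ n, 0 < n ∧ ζ' ^ n = 1) → (∃ n, 0 < n ∧ η' ^ n = 1) → aeval (a + ζ') g = η' →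
      ζ' = 1 ∨ ζ' = -1) → z - a = 1 ∨ z - a = -1) := by
  obtain ⟨h1, h2⟩ := root_step hg h
  have hG : (g.comp (X + C a)).Monic := hg.comp_X_add_C a
  have hGd : (g.comp (X + C a)).natDegree = g.natDegree := by
    rw [natDegree_comp, natDegree_X_add_C, mul_one]
  have hG0 : (g.comp (X + C a)).coeff 0 ≠ 0 := by
    rw [coeff_zero_eq_eval_zero, eval_comp]
    simpa using ha
  have k1 : ((z : ℚ_[p]) - a) ^ (2 * n) = 1 := by
    have := congrArg (fun x : ℤ_[p] => (x : ℚ_[p])) h1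
    push_cast at this
    exact this
  have k2 : (((toP p g).eval z : ℤ_[p]) : ℚ_[p]) ^ (2 * n) = 1 := by
    rw [← PadicInt.coe_pow, h2, PadicInt.coe_one]
  obtain ⟨c1, c2, c3⟩ := cyc (g.comp (X + C a)) hG hG0 (by rw [hGd]; exact hd)
    (by omega : 0 < 2 * n) k1 k2 (shift_eval a g z)
  have ho : orderOf ((z : ℚ_[p]) - a) = orderOf (z - a) := by
    have := orderOf_injective (PadicInt.Coe.ringHom (p := p)).toMonoidHom
      (fun x y hxy => PadicInt.ext hxy) (z - a)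
    rw [← this]
    congr 1

  rw [ho, hGd] at c2
  refine ⟨c1, c2, fun hC => ?_⟩
  have c4 := c3 (fun ζ' η' g1 g2 g3 => hC ζ' η' g1 g2 (by
    rw [aeval_comp, map_add, aeval_X, aeval_C] at g3
    rw [← g3]
    congr 1
    simp [add_comm]))
  rcases c4 with c4 | c4
  · left
    apply PadicInt.ext
    push_cast
    exact c4
  · right
    apply PadicInt.ext
    push_cast
    exact c4

end Pool.Agent.N874.WG
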