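import Pool.Agent.N874.WG.D

set_option autoImplicit false

open Polynomial

namespace Pool.Agent.N874.WG

noncomputable abbrev Q (b c : ℤ) : ℤ[X] := X ^ 2 + C b * X + C c

theorem Q_monic (b c : ℤ) : (Q b c).Monic := by
  unfold Q
  monicity!

theorem Q_natDegree (b c : ℤ) : (Q b c).natDegree = 2 := by
  unfold Q
  compute_degree!

theorem am (x : ℤ) : algebraMap ℤ (Matrix (Fin 2) (Fin 2) ℤ) x = !![x, 0; 0, x] := by
  rw [Matrix.algebraMap_eq_diagonal]
  ext i j
  fin_cases i <;> fin_cases j <;> simp [Matrix.diagonal]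

/-- the units modulo an imaginary quadratic polynomial have order dividing `12` -/
theorem unit_pow {b c : ℤ} (hD : b ^ 2 - 4 * c < 0) {u v a : ℤ[X]}
    (huv : u * v = 1 + Q b c * a) : ∃ w : ℤ[X], u ^ 12 = 1 + Q b c * w := by
  have hm := Q_monic b c
  obtain ⟨y, x, hL⟩ := exists_eq_X_add_C_of_natDegree_le_one (p := u %ₘ Q b c) (by
    have := natDegree_modByMonic_lt u hm (by
      intro h
      have := Q_natDegree b c
      rw [h, natDegree_one] at this
      omega)
    rw [Q_natDegree] at this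
    omega)
  have hu : u = Q b c * (u /ₘ Q b c) + (C y * X + C x) := by
    rw [← hL, add_comm]
    exact (modByMonic_add_div u _).symm
  let B : Matrix (Fin 2) (Fin 2) ℤ := !![0, -c; 1, -b]
  have hB : aeval B (Q b c) = 0 := by
    simp only [Q, map_add, map_mul, map_pow, aeval_X, aeval_C]
    rw [am, am]
    ext i j
    fin_cases i <;> fin_cases j <;>
      simp [B, sq, Matrix.mul_apply, Fin.sum_univ_two] <;> ring
  have hBu : aeval B u = !![0, -c * y; y, -b * y] + !![x, 0; 0, x] := by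
    rw [hu, map_add, map_mul, hB, zero_mul, zero_add, map_add, map_mul, aeval_C, aeval_C, aeval_X]
    rw [am, am]
    congr 1
    ext i j
    fin_cases i <;> fin_cases j <;> simp [B, Matrix.mul_apply, Fin.sum_univ_two] <;> ring
  have hdet : (aeval B u).det = x ^ 2 - b * x * y + c * y ^ 2 := by
    rw [hBu, Matrix.det_fin_two]
    simp
    ring
  have hunit : IsUnit (aeval B u).det := by
    refine IsUnit.of_mul_eq_one (aeval B v).det ?_
    rw [← Matrix.det_mul, ← map_mul, huv, map_add, map_mul, hB, zero_mul, add_zero, map_one,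
      Matrix.det_one]
  rw [hdet, Int.isUnit_iff] at hunit
  have hpos : 0 ≤ x ^ 2 - b * x * y + c * y ^ 2 := by nlinarith [sq_nonneg (2 * x - b * y), sq_nonneg y]
  have hN : x ^ 2 - b * x * y + c * y ^ 2 = 1 := by
    rcases hunit with h | h
    · exact h
    · omega
  have ht : (2 * x - b * y) ^ 2 = 4 + (b ^ 2 - 4 * c) * y ^ 2 := by linear_combination 4 * hN
  have ht2 : (2 * x - b * y) ^ 2 ≤ 4 := by nlinarith [sq_nonneg y]
  have hb1 : -2 ≤ 2 * x - b * y := by nlinarith
  have hb2 : 2 * x - b * y ≤ 2 := by nlinarith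
  set L : ℤ[X] := C y * X + C x with hLdef
  have hq : L ^ 2 = C (2 * x - b * y) * L - 1 + Q b c * C (y ^ 2) := by
    have e1 : (1 : ℤ[X]) = C (x ^ 2 - b * x * y + c * y ^ 2) := by rw [hN, C_1]
    rw [e1, hLdef]
    simp only [Q, C_sub, C_add, C_mul, C_pow]
    have : (C 2 : ℤ[X]) = 2 := rfl
    rw [this]
    ring
  have hL12 : ∃ w : ℤ[X], L ^ 12 = 1 + Q b c * w := by
    generalize 2 * x - b * y = t at *
    have h5 : t = -2 ∨ t = -1 ∨ t = 0 ∨ t = 1 ∨ t = 2 := by omega
    have hy : t ^ 2 = 4 → y = 0 := by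
      intro h
      have : (b ^ 2 - 4 * c) * y ^ 2 = 0 := by linarith
      rcases mul_eq_zero.1 this with h1 | h1
      · omega
      · exact pow_eq_zero_iff (two_ne_zero) |>.1 h1
    have hx : y = 0 → ∃ w : ℤ[X], L ^ 12 = 1 + Q b c * w := by
      intro h
      rw [h] at hN
      have h1 : (x - 1) * (x + 1) = 0 := by linear_combination hN
      have h2 : L = C x := by rw [hLdef, h, C_0, zero_mul, zero_add]
      refine ⟨0, ?_⟩
      rw [h2, ← C_pow, mul_zero, add_zero]
      rcases mul_eq_zero.1 h1 with h3 | h3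
      · have : x = 1 := by omega
        rw [this]
        simp
      · have : x = -1 := by omega
        rw [this]
        norm_num
    have fin : ∀ (s v : ℤ[X]) (m : ℕ), s ^ m - v ^ m = L ^ 12 - 1 → Q b c ∣ s - v →
        ∃ w : ℤ[X], L ^ 12 = 1 + Q b c * w := by
      intro s v m h1 h2
      obtain ⟨w, hw⟩ := h2.trans (sub_dvd_pow_sub_pow s v m)
      exact ⟨w, by linear_combination hw - h1⟩
    rcases h5 with rfl | rfl | rfl | rfl | rfl
    · exact hx (hy (by norm_num))
    · refine fin (L ^ 3) 1 4 (by ring) ⟨C (y ^ 2) * (L - 1), ?_⟩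
      rw [C_neg, C_1] at hq
      linear_combination (L - 1) * hq
    · refine fin (L ^ 2) (-1) 6 (by ring) ⟨C (y ^ 2), ?_⟩
      rw [C_0] at hq
      linear_combination hq
    · refine fin (L ^ 3) (-1) 4 (by ring) ⟨C (y ^ 2) * (L + 1), ?_⟩
      rw [C_1] at hq
      linear_combination (L + 1) * hq
    · exact hx (hy (by norm_num))
  obtain ⟨w, hw⟩ := hL12
  have hdvd : Q b c ∣ u ^ 12 - L ^ 12 := by
    refine dvd_trans ?_ (sub_dvd_pow_sub_pow u L 12)
    exact ⟨u /ₘ Q b c, by rw [eq_comm, ← sub_eq_zero]; linear_combination (-1 : ℤ[X]) * hu⟩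
  obtain ⟨w', hw'⟩ := hdvd
  exact ⟨w + w', by linear_combination hw + hw'⟩

end Pool.Agent.N874.WG
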