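import Pool.Agent.N874.WG.E

set_option autoImplicit false

open Polynomial

namespace Pool.Agent.N874.WG

variable {p : ℕ} [Fact p.Prime]

theorem exact_dvd {b c : ℤ} (hD : b ^ 2 - 4 * c < 0) {z : ℤ_[p]} {n : ℕ}
    (h : Approx p (Q b c) z n) : toP p (Q b c) ∣ (C z - X) ^ (12 * n) - 1 := by
  have hm : (toP p (Q b c)).Monic := (Q_monic b c).map _
  rw [← modByMonic_eq_zero_iff_dvd hm]
  ext i
  rw [coeff_zero]
  rw [← PadicInt.ext_of_toZModPow]
  intro k
  obtain ⟨u, ⟨v, a, huv⟩, b', c', hk⟩ := h k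
  obtain ⟨w, hw⟩ := unit_pow hD huv
  obtain ⟨s1, hs1⟩ := sub_dvd_pow_sub_pow ((C z - X) ^ n) (toP p u + C ((p : ℤ_[p]) ^ k) * c') 12
  obtain ⟨s2, hs2⟩ := sub_dvd_pow_sub_pow (toP p u + C ((p : ℤ_[p]) ^ k) * c') (toP p u) 12
  have hs3 : (toP p u) ^ 12 = 1 + toP p (Q b c) * toP p w := by
    have := congrArg (fun P : ℤ[X] => P.map (Int.castRingHom ℤ_[p])) hw
    simpa only [Polynomial.map_pow, Polynomial.map_add, Polynomial.map_mul, Polynomial.map_one]
      using this
  have key : (C z - X) ^ (12 * n) - 1 = toP p (Q b c) * (b' * s1 + toP p w) +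
      ((p : ℤ_[p]) ^ k) • (c' * s2) := by
    rw [smul_eq_C_mul, mul_comm 12 n, pow_mul]
    rw [hk] at hs1 ⊢
    linear_combination hs1 + hs2 + hs3
  rw [key, add_modByMonic, self_mul_modByMonic hm, zero_add, smul_modByMonic, coeff_smul,
    smul_eq_mul, map_mul, map_pow, map_natCast, map_zero]
  have : ((p : ZMod (p ^ k)) ^ k) = 0 := by
    rw [← Nat.cast_pow, ZMod.natCast_self]
  rw [this, zero_mul]

theorem cx {w1 w2 : ℂ} (h1 : ‖w1‖ = 1) (h2 : ‖w2‖ = 1) {D : ℤ} (hD : D < 0)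
    (h : (w2 - w1) ^ 2 = D) : (w1 + w2) ^ 2 = 4 + D ∧ -4 ≤ D := by
  have n1 : w1.re * w1.re + w1.im * w1.im = 1 := by
    have := Complex.normSq_apply w1
    rw [Complex.normSq_eq_norm_sq, h1] at this
    linarith
  have n2 : w2.re * w2.re + w2.im * w2.im = 1 := by
    have := Complex.normSq_apply w2
    rw [Complex.normSq_eq_norm_sq, h2] at this
    linarith
  have e1 := congrArg Complex.re h
  have e2 := congrArg Complex.im h
  simp only [sq, Complex.mul_re, Complex.mul_im, Complex.sub_re, Complex.sub_im,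
    Complex.intCast_re, Complex.intCast_im] at e1 e2
  have hDr : (D : ℝ) < 0 := by exact_mod_cast hD
  have e3 : (w2.re - w1.re) * (w2.im - w1.im) = 0 := by linarith
  have e4 : w2.im - w1.im ≠ 0 := by
    intro h0
    rw [h0] at e1
    nlinarith [mul_self_nonneg (w2.re - w1.re)]
  have e5 : w2.re = w1.re := by
    rcases mul_eq_zero.1 e3 with h0 | h0
    · linarith
    · exact absurd h0 e4
  have e6 : w2.im = -w1.im := by
    have : (w2.im - w1.im) * (w2.im + w1.im) = 0 := by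
      rw [e5] at n2
      linarith
    rcases mul_eq_zero.1 this with h0 | h0
    · exact absurd h0 e4
    · linarith
  rw [e5, e6] at e1
  have e7 : (D : ℝ) = -4 * (w1.im * w1.im) := by linarith
  constructor
  · apply Complex.ext
    · simp only [sq, Complex.mul_re, Complex.add_re, Complex.add_im, Complex.intCast_re]
      rw [e5, e6, e7]
      simp only [Complex.re_ofNat]
      linarith
    · simp only [sq, Complex.mul_im, Complex.add_re, Complex.add_im, Complex.intCast_im]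
      rw [e5, e6]
      simp
  · have : (-4 : ℝ) ≤ D := by
      rw [e7]
      nlinarith [mul_self_nonneg w1.re]
    exact_mod_cast this

theorem iqK {K : Type} [Field K] [CharZero K] [IsAlgClosed K] (ψ : ℤ_[p] →+* K)
    (hψ : Function.Injective ψ) {b c : ℤ} (hD : b ^ 2 - 4 * c < 0) {z : ℤ_[p]} {n : ℕ} (hn : 0 < n)
    (h : Approx p (Q b c) z n) : ∃ x : ℤ, z = x := by
  obtain ⟨w, hw⟩ := exact_dvd hD h
  have hα : ∀ α : K, α ^ 2 + b * α + c = 0 → (ψ z - α) ^ (12 * n) = 1 := by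
    intro α hα
    have h1 := congrArg (eval₂ ψ α) hw
    rw [eval₂_mul, eval₂_sub, eval₂_pow, eval₂_sub, eval₂_C, eval₂_X, eval₂_one] at h1
    have h2 : eval₂ ψ α (toP p (Q b c)) = α ^ 2 + b * α + c := by
      rw [toP, eval₂_map]
      simp only [Q, eval₂_add, eval₂_mul, eval₂_pow, eval₂_X, eval₂_C]
      simp
    rw [h2, hα, zero_mul, sub_eq_zero] at h1
    exact h1
  obtain ⟨s, hs⟩ := IsAlgClosed.exists_pow_nat_eq (((b ^ 2 - 4 * c : ℤ) : K)) (n := 2) (by norm_num)
  have h20 : (2 : K) ≠ 0 := two_ne_zero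
  rw [Int.cast_sub, Int.cast_pow, Int.cast_mul, Int.cast_ofNat] at hs
  have a1 := hα ((-b + s) / 2) (by field_simp; linear_combination hs)
  have a2 := hα ((-b - s) / 2) (by field_simp; linear_combination hs)
  obtain ⟨ξ, M, i, j, hM, hξ, hi, hj⟩ := common (by omega : 0 < 12 * n) a1 a2
  have b1 : aeval ξ ((X ^ j - X ^ i) ^ 2 - C (b ^ 2 - 4 * c) : ℤ[X]) = 0 := by
    rw [map_sub, map_pow, map_sub, map_pow, map_pow, aeval_X, aeval_C, ← hi, ← hj]
    simp only [eq_intCast]
    push_cast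
    rw [← hs]
    field_simp
    ring
  have hξ' := Complex.isPrimitiveRoot_exp M hM.ne'
  set ξ' := Complex.exp (2 * Real.pi * Complex.I / M) with hdef
  have b2 := transfer hM hξ hξ' _ b1
  rw [map_sub, map_pow, map_sub, map_pow, map_pow, aeval_X, aeval_C, sub_eq_zero] at b2
  have n0 : ‖ξ'‖ = 1 := Complex.norm_eq_one_of_pow_eq_one hξ'.pow_eq_one hM.ne'
  obtain ⟨b3, b4⟩ := cx (w1 := ξ' ^ i) (w2 := ξ' ^ j) (by rw [norm_pow, n0, one_pow])
    (by rw [norm_pow, n0, one_pow]) hD (by rw [b2]; simp)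
  have b5 : aeval ξ' ((X ^ i + X ^ j) ^ 2 - C (4 + (b ^ 2 - 4 * c)) : ℤ[X]) = 0 := by
    rw [map_sub, map_pow, map_add, map_pow, map_pow, aeval_X, aeval_C, b3]
    simp
  have b6 := transfer hM hξ' hξ _ b5
  rw [map_sub, map_pow, map_add, map_pow, map_pow, aeval_X, aeval_C, ← hi, ← hj] at b6
  simp only [eq_intCast] at b6
  have b7 : ψ ((2 * z + b) ^ 2) = ψ (4 + (b ^ 2 - 4 * c)) := by
    simp only [map_pow, map_add, map_mul, map_sub, map_ofNat, map_intCast]
    push_cast at b6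
    linear_combination b6
  have b8 := hψ b7
  have hcase : b ^ 2 - 4 * c = -4 ∨ b ^ 2 - 4 * c = -3 := by
    rcases Int.even_or_odd' b with ⟨m, hm | hm⟩
    · left
      have : b ^ 2 = 4 * (m * m) := by rw [hm]; ring
      omega
    · right
      have : b ^ 2 = 4 * (m * m + m) + 1 := by rw [hm]; ring
      omega
  have h2z : (2 : ℤ_[p]) ≠ 0 := two_ne_zero
  rcases Int.even_or_odd' b with ⟨m, hm | hm⟩
  · have hb : b ^ 2 - 4 * c = -4 := by
      have : b ^ 2 = 4 * (m * m) := by rw [hm]; ring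
      omega
    have hb' : ((b : ℤ_[p]) ^ 2 - 4 * c) = -4 := by exact_mod_cast congrArg (Int.cast : ℤ → ℤ_[p]) hb
    rw [hb', add_neg_cancel, sq_eq_zero_iff, hm] at b8
    refine ⟨-m, ?_⟩
    push_cast at b8 ⊢
    have : (2 : ℤ_[p]) * (z + m) = 0 := by linear_combination b8
    rcases mul_eq_zero.1 this with h0 | h0
    · exact absurd h0 h2z
    · linear_combination h0
  · have hb : b ^ 2 - 4 * c = -3 := by
      have : b ^ 2 = 4 * (m * m + m) + 1 := by rw [hm]; ring
      omega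
    have hb' : ((b : ℤ_[p]) ^ 2 - 4 * c) = -3 := by exact_mod_cast congrArg (Int.cast : ℤ → ℤ_[p]) hb
    rw [hb', hm] at b8
    push_cast at b8
    have : (2 : ℤ_[p]) * ((z + m) * (2 * (z + m + 1))) = 0 := by linear_combination b8
    rcases mul_eq_zero.1 this with h0 | h0
    · exact absurd h0 h2z
    · rcases mul_eq_zero.1 h0 with h0 | h0
      · refine ⟨-m, ?_⟩
        push_cast
        linear_combination h0
      · rcases mul_eq_zero.1 h0 with h0 | h0
        · exact absurd h0 h2z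
        · refine ⟨-m - 1, ?_⟩
          push_cast
          linear_combination h0

theorem iq {b c : ℤ} (hD : b ^ 2 - 4 * c < 0) {z : ℤ_[p]} {n : ℕ} (hn : 0 < n)
    (h : Approx p (Q b c) z n) : ∃ x : ℤ, z = x := by
  refine iqK ((algebraMap ℚ_[p] (AlgebraicClosure ℚ_[p])).comp PadicInt.Coe.ringHom) ?_ hD hn h
  apply Function.Injective.comp (algebraMap ℚ_[p] (AlgebraicClosure ℚ_[p])).injective
  exact fun x y hxy => PadicInt.ext hxy

end Pool.Agent.N874.WG
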