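import Pool.Agent.N874.WG.F

set_option autoImplicit false

open Polynomial

namespace Pool.Agent.N874.WG

/-- the roots of unity of a field are powers of one primitive root of unity -/
theorem common' (K : Type) [Field K] {N : ℕ} (hN : 0 < N) :
    ∃ (ξ : K) (M : ℕ), 0 < M ∧ IsPrimitiveRoot ξ M ∧ ∀ x : K, x ^ N = 1 → ∃ i : ℕ, x = ξ ^ i := by
  have : NeZero N := ⟨hN.ne'⟩
  obtain ⟨g, hg⟩ := IsCyclic.exists_generator (α := rootsOfUnity N K)
  have hfin : IsOfFinOrder g := isOfFinOrder_of_finite g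
  have h1 : ∀ x : K, x ^ N = 1 → ∃ i : ℕ, x = ((g : Kˣ) : K) ^ i := by
    intro x hx
    let y : rootsOfUnity N K := rootsOfUnity.mkOfPowEq x hx
    have hy := hg y
    rw [← hfin.mem_powers_iff_mem_zpowers] at hy
    obtain ⟨i, hi⟩ := hy
    refine ⟨i, ?_⟩
    have h2 : ((y : Kˣ) : K) = x := rootsOfUnity.coe_mkOfPowEq _
    rw [← h2, ← hi]
    simp
  have hg1 : ((g : Kˣ) : K) ^ N = 1 := by
    have := g.2
    rw [mem_rootsOfUnity] at this
    rw [← Units.val_pow_eq_pow_val, this, Units.val_one]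
  refine ⟨((g : Kˣ) : K), orderOf ((g : Kˣ) : K), ?_, IsPrimitiveRoot.orderOf _, h1⟩
  exact orderOf_pos_iff.2 (isOfFinOrder_iff_pow_eq_one.2 ⟨N, hN, hg1⟩)

variable {p : ℕ} [Fact p.Prime]

/-- all components at once -/
theorem all_comp {a : ℤ} {f : ℤ[X]} (ha : X - C a ∣ f)
    (hC : ∀ ζ : ℂ, (∃ n, 0 < n ∧ ζ ^ n = 1) →
      (∀ g : ℤ[X], g.Monic → (X - C a) * g ∣ f → ∃ n, 0 < n ∧ (aeval (a + ζ) g) ^ n = 1) →
      ζ = 1 ∨ ζ = -1)
    {z : ℤ_[p]} {n : ℕ} (hn : 0 < n) (h : Approx p f z n) : z - a = 1 ∨ z - a = -1 := by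
  have hN : 0 < 2 * n := by omega
  obtain ⟨ξ, M, hM, hξ, hall⟩ := common' ℚ_[p] hN
  have hz : (z - a) ^ (2 * n) = 1 := by
    obtain ⟨h', rfl⟩ := ha
    have h1 := f_pow (monic_X_sub_C a) h.dvd
    have e : (toP p (X - C a)).eval z = z - a := by
      simp [toP]
    rwa [e] at h1
  have k1 : ((z : ℚ_[p]) - a) ^ (2 * n) = 1 := by
    have := congrArg (fun x : ℤ_[p] => (x : ℚ_[p])) hz
    push_cast at this
    exact this
  obtain ⟨i, hi⟩ := hall _ k1
  have hξ' := Complex.isPrimitiveRoot_exp M hM.ne'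
  set ξ' := Complex.exp (2 * Real.pi * Complex.I / M) with hdef
  have h7 : ξ' ^ i = 1 ∨ ξ' ^ i = -1 := by
    refine hC (ξ' ^ i) ⟨M, hM, ?_⟩ ?_
    · rw [← pow_mul, mul_comm, pow_mul, hξ'.pow_eq_one, one_pow]
    · rintro g hg ⟨h', rfl⟩
      have h2 := (root_step hg h.dvd).2
      have k2 : (((toP p g).eval z : ℤ_[p]) : ℚ_[p]) ^ (2 * n) = 1 := by
        rw [← PadicInt.coe_pow, h2, PadicInt.coe_one]
      obtain ⟨j, hj⟩ := hall _ k2
      have h3 := shift_eval a g z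
      rw [hi, hj] at h3
      have h4 := rel hM hξ hξ' _ i j h3
      rw [aeval_comp, map_add, aeval_X, aeval_C] at h4
      refine ⟨M, hM, ?_⟩
      have e : (a : ℂ) + ξ' ^ i = ξ' ^ i + (algebraMap ℤ ℂ) a := by
        simp [add_comm]
      rw [e, h4, ← pow_mul, mul_comm, pow_mul, hξ'.pow_eq_one, one_pow]
  have h8 : aeval ξ' ((X ^ i) ^ 2 - 1 : ℤ[X]) = 0 := by
    rw [map_sub, map_pow, map_pow, aeval_X, map_one]
    rcases h7 with e | e <;> rw [e] <;> ring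
  have h9 := transfer hM hξ' hξ ((X ^ i) ^ 2 - 1 : ℤ[X]) h8
  rw [map_sub, map_pow, map_pow, aeval_X, map_one, sub_eq_zero, sq, mul_self_eq_one_iff, ← hi] at h9
  rcases h9 with c4 | c4
  · left
    apply PadicInt.ext
    push_cast
    exact c4
  · right
    apply PadicInt.ext
    push_cast
    exact c4

end Pool.Agent.N874.WG
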